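import Pool.Agent.Y233.Fr.Few

/-!
# The weak Lefschetz property for few or many generic forms

Let `K` be any field and let `f 1, …, f r` be generic forms of degrees `d i` in `N = n + 1 ≥ 2`
variables. Multiplication by a linear form from degree `k` to degree `k + 1` of the quotient has
maximal rank

* in every degree `k`, if at least `2 ^ (N - 2)` of the forms have the least degree;
* if `2 (k + 1) + m + 1 ≤ 4 d i` for all `i`, where `r ≤ 2 ^ m`.

Idea of the proof. The restrictions of the forms to a hyperplane are generic forms in `N - 1`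
variables, and they have maximal rank in degree `k + 1` by the theorems of
`Pool/Agent/Results/MP_3395a4_ag/TwoPowForms.lean` and
`Pool/Agent/Results/MP_3395a4_ag/FewForms.lean`.
-/

set_option autoImplicit false

namespace Pool.Agent.Results.MP_2ad852_ag.FewOrManyForms

open MvPolynomial

/-- Multiplication by `x_0` as a map from degree `k` to degree `k + 1` of the quotient of the
polynomial ring in `n + 1` variables by the forms `f i` is injective or surjective. -/
def MaximalRank {K : Type} [Field K] {n r : ℕ} (f : Fin r → MvPolynomial (Fin (n + 1)) K)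
    (k : ℕ) : Prop :=
  (∀ g : MvPolynomial (Fin (n + 1)) K, g.IsHomogeneous k → X 0 * g ∈ Ideal.span (Set.range f) →
    g ∈ Ideal.span (Set.range f)) ∨
  (∀ F : MvPolynomial (Fin (n + 1)) K, F.IsHomogeneous (k + 1) →
    ∃ g : MvPolynomial (Fin (n + 1)) K, g.IsHomogeneous k ∧
      F - X 0 * g ∈ Ideal.span (Set.range f))

/-- The weak Lefschetz property for generic forms in `n + 1` variables: in every degree if at least
`2 ^ (n - 1)` of the forms have the least degree, and in the degrees `k` with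
`2 (k + 1) + m + 1 ≤ 4 d i` if there are at most `2 ^ m` forms. -/
theorem result (m n : ℕ) (hn : 1 ≤ n) (K : Type) [Field K] (r : ℕ) (hr : r ≤ 2 ^ m)
    (d : Fin r → ℕ) :
    ∃ P : MvPolynomial (Σ i : Fin r, {m : Fin (n + 1) →₀ ℕ // Finsupp.degree m = d i}) K,
      P ≠ 0 ∧
      ∀ f : Fin r → MvPolynomial (Fin (n + 1)) K, (∀ i, (f i).IsHomogeneous (d i)) →
        MvPolynomial.eval
            (fun s : (Σ i : Fin r, {m : Fin (n + 1) →₀ ℕ // Finsupp.degree m = d i}) =>
              (f s.1).coeff s.2.1) P ≠ 0 →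
        ∀ k : ℕ,
          ((∃ δ, 1 ≤ δ ∧ (∀ i, δ ≤ d i) ∧
              2 ^ (n - 1) ≤ (Finset.univ.filter (fun i => d i = δ)).card) ∨
            ∀ i, 2 * (k + 1) + (m + 1) ≤ 4 * d i) →
          MaximalRank f k := by
  obtain ⟨P, hP, hP2⟩ := Pool.Agent.Y233.Fr.wl_few K m n r d hn hr
  obtain ⟨Q, hQ, hQ2⟩ : ∃ Q : MvPolynomial
      (Σ i : Fin r, {m : Fin (n + 1) →₀ ℕ // Finsupp.degree m = d i}) K, Q ≠ 0 ∧
      ((∃ δ, 1 ≤ δ ∧ (∀ i, δ ≤ d i) ∧
          2 ^ (n - 1) ≤ (Finset.univ.filter (fun i => d i = δ)).card) →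
        ∀ f : Fin r → MvPolynomial (Fin (n + 1)) K, (∀ i, (f i).IsHomogeneous (d i)) →
        MvPolynomial.eval
            (fun s : (Σ i : Fin r, {m : Fin (n + 1) →₀ ℕ // Finsupp.degree m = d i}) =>
              (f s.1).coeff s.2.1) Q ≠ 0 → ∀ k : ℕ, MaximalRank f k) := by
    by_cases h : ∃ δ, 1 ≤ δ ∧ (∀ i, δ ≤ d i) ∧
        2 ^ (n - 1) ≤ (Finset.univ.filter (fun i => d i = δ)).card
    · obtain ⟨δ, h1, h2, h3⟩ := h
      obtain ⟨Q, hQ, hQ2⟩ := Pool.Agent.Y233.Fr.wl_half K n r d hn δ h1 h2 h3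
      exact ⟨Q, hQ, fun _ => hQ2⟩
    · exact ⟨1, one_ne_zero, fun h' => absurd h' h⟩
  refine ⟨P * Q, mul_ne_zero hP hQ, fun f hf hfP k hk => ?_⟩
  rw [map_mul] at hfP
  rcases hk with hk | hk
  · exact hQ2 hk f hf (right_ne_zero_of_mul hfP) k
  · refine hP2 f hf (left_ne_zero_of_mul hfP) k fun i => le_trans ?_ (hk i)
    exact Nat.add_le_add_left (min_le_right _ _) _

end Pool.Agent.Results.MP_2ad852_ag.FewOrManyForms
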