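import Pool.Agent.Y233.Fr.WL
import Pool.Agent.Y233.Fr.Many

/-!
# The weak Lefschetz property for generic forms: degrees up to `2 δ - n / 2`, and in full for
`2 ^ n` forms in `n + 1` variables

Let `K` be any field and `f i` generic forms of degrees `d i` in `n + 1` variables. Multiplication
by `x_0` from degree `k` to degree `k + 1` of the quotient is injective or surjective if
`2 (k + 1) + n ≤ 4 d i` for all `i`, or `2 (k + 1) + 1 ≤ 3 d i` for all `i`, or more generally if
`k + 1` is good in the sense of `Good`, and in all degrees `k ≥ D - 1` if `D` is good and the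
coefficient of Fröberg's series in `n` variables is not positive in degree `D`, in particular in all
degrees for at least `2 ^ n` forms of any equal degree, for more than `2 ^ (n - 1)` forms of large
equal degree, and for at least nine forms of any equal degree in five variables.

Idea of the proof. By our theorem on Fröberg's formula
(`Pool/Agent/Results/MP_3395a4_ag/NearlyTwiceTheDegree.lean`) the restrictions of the forms to a
hyperplane have maximal rank in these degrees. This gives maximal rank of the multiplication by the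
equation of the hyperplane.
-/

set_option autoImplicit false

namespace Pool.Agent.Results.MP_2ad852_ag.NearlyTwiceTheDegree

open MvPolynomial

/-- Multiplication by `x_0` as a map from degree `k` to degree `k + 1` of the quotient of the
polynomial ring in `n + 1` variables by the forms `f i` is injective or surjective. -/
def MaximalRank {K : Type} [Field K] {n r : ℕ} (f : Fin r → MvPolynomial (Fin (n + 1)) K)
    (k : ℕ) : Prop :=
  (∀ g : MvPolynomial (Fin (n + 1)) K, g.IsHomogeneous k → X 0 * g ∈ Ideal.span (Set.range f) →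
    g ∈ Ideal.span (Set.range f)) ∨
  (∀ F : MvPolynomial (Fin (n + 1)) K, F.IsHomogeneous (k + 1) →
    ∃ g : MvPolynomial (Fin (n + 1)) K, g.IsHomogeneous k ∧
      F - X 0 * g ∈ Ideal.span (Set.range f))

/-- The coefficient of `z ^ k` in `(1 - z) ^ (-n) * ∏ i, (1 - z ^ d i)`. -/
noncomputable def co (n : ℕ) {r : ℕ} (d : Fin r → ℕ) (k : ℕ) : ℤ :=
  PowerSeries.coeff k
    ((PowerSeries.mk fun _ => (1 : ℤ)) ^ n * ∏ i : Fin r, (1 - PowerSeries.X ^ d i))

/-- The good degrees: for all `i`, `k < 2 d i` and one of four conditions holds. -/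
def Good (n : ℕ) {r : ℕ} (d : Fin r → ℕ) (k : ℕ) : Prop :=
  ∀ i, k < 2 * d i ∧ (k ≤ d i ∨ n * (k - d i) ≤ (2 * d i - k) * (k - 1) ∨
    2 * k + 2 ≤ n + 2 * d i ∨
    2 * (n + (k - d i)) * (n + (k - d i) - 1).choose (k - d i) ≤ n * (n + d i - 1).choose (d i))

/-- The weak Lefschetz property for generic forms in `n + 1` variables. -/
theorem result (n : ℕ) (hn : 1 ≤ n) (K : Type) [Field K] (r : ℕ) (d : Fin r → ℕ) :
    ∃ P : MvPolynomial (Σ i : Fin r, {m : Fin (n + 1) →₀ ℕ // Finsupp.degree m = d i}) K,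
      P ≠ 0 ∧
      ∀ f : Fin r → MvPolynomial (Fin (n + 1)) K, (∀ i, (f i).IsHomogeneous (d i)) →
        MvPolynomial.eval
            (fun s : (Σ i : Fin r, {m : Fin (n + 1) →₀ ℕ // Finsupp.degree m = d i}) =>
              (f s.1).coeff s.2.1) P ≠ 0 →
        ∀ k : ℕ,
          ((∀ i, 2 * (k + 1) + n ≤ 4 * d i) ∨ (∀ i, 2 * (k + 1) + 1 ≤ 3 * d i) ∨
            Good n d (k + 1) ∨ (∃ D ≤ k + 1, Good n d D ∧ co n d D ≤ 0) ∨
            (∃ δ, 1 ≤ δ ∧ (∀ i, d i = δ) ∧
              (2 ^ n ≤ r ∨ (2 ^ (n - 1) < r ∧ n ^ 2 * 2 ^ n ≤ δ) ∨ (n = 4 ∧ 9 ≤ r)))) →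
          MaximalRank f k := by
  obtain ⟨P, hP, hP2⟩ := Pool.Agent.Y233.Fr.wl_good K n r d hn
  refine ⟨P, hP, fun f hf hfP k hk => hP2 f hf hfP k ?_⟩
  rcases hk with hk | hk | hk | hk | ⟨δ, hδ, hd, hr | ⟨hr, hδ2⟩ | ⟨rfl, hr⟩⟩
  · exact Or.inl (Pool.Agent.Y233.Fr.good_half hn hk)
  · exact Or.inl (Pool.Agent.Y233.Fr.good_three hk)
  · exact Or.inl hk
  · exact Or.inr hk
  · exact Pool.Agent.Y233.Fr.equal n r δ d hn hr hδ hd (k + 1)
  · exact Pool.Agent.Y233.Fr.equal_large n r δ d hn hr hδ2 hd (k + 1)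
  · exact Pool.Agent.Y233.Fr.equal_four r δ d hr hδ hd (k + 1)

end Pool.Agent.Results.MP_2ad852_ag.NearlyTwiceTheDegree
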